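import Pool.Agent.Q221.AutIso.Main

set_option autoImplicit false

/-!
# The isomorphism problem for self-similar groups is undecidable

For a counter machine with undecidable halting problem and an input `N` there are two automata
`A_N`, `B_N` over an alphabet with 18 letters (16 digits, on which the states act by affine maps of
`ℤ₂⁴` whose linear parts are pairs of elements of a free subgroup of `GL₂(ℤ)`, and two further
letters that are exchanged by the states of weight one). If the machine stops on `N` then the two
groups are equal (as groups acting on rays) and contain an involution; otherwise `G(A_N)` has no
involution, while `G(B_N)` always has one.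

The definitions are in `Pool.Agent.Q221.AutIso.Def`.
-/

namespace Pool.Agent.Results.MP_56d946_al.IsoUndecidable

open Pool.Agent.Q221.AutIso

/-- Every algorithm that takes the tables of two finite invertible automata fails to decide whether
the groups they generate are isomorphic, for some pair of automata over an alphabet with 18
letters. -/
theorem result (f : (ℕ × ℕ × List (List (ℕ × ℕ))) → (ℕ × ℕ × List (List (ℕ × ℕ))) → Bool)
    (hf : Computable₂ f) :
    ∃ (n m : ℕ) (A : Auto n 18) (B : Auto m 18),
      ¬ (f A.code B.code = true ↔ Nonempty (A.group ≃* B.group)) := by
  by_contra h
  push Not at h
  exact undecidable ⟨f, hf, h⟩

end Pool.Agent.Results.MP_56d946_al.IsoUndecidable
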